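import Pool.Agent.MP_ed9623_an.H77.SpecW

/-! Bounded functionals on test functions are represented by square integrable functions. -/

open MeasureTheory Filter Topology Set
open scoped ContDiff

namespace Pool.Agent.MP_ed9623_an.H77

open H64

namespace Riesz

/-- The space of test functions. -/
def TS (O : Set P) : Submodule ℝ (P → ℝ) where
  carrier := {φ | Test O φ}
  add_mem' a b := Test.add a b
  zero_mem' := Test.zero O
  smul_mem' c _ a := Test.cmul a c

/-- The class of a test function. -/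
noncomputable def cl (O : Set P) : TS O →ₗ[ℝ] L where
  toFun φ := MemLp.toLp φ.1 (Test.m2 φ.2)
  map_add' φ ψ := MemLp.toLp_add (Test.m2 φ.2) (Test.m2 ψ.2)
  map_smul' c φ := MemLp.toLp_const_smul c (Test.m2 φ.2)

end Riesz

open Riesz in
theorem rowRiesz : OfRiesz := by
  intro O Λ R hR hadd hmul hb
  let Λ' : TS O →ₗ[ℝ] ℝ :=
    { toFun φ := Λ φ.1
      map_add' φ ψ := hadd _ _ φ.2 ψ.2
      map_smul' c φ := hmul c _ φ.2 }
  have hb' : ∀ φ : TS O, |Λ' φ| ≤ R * ‖cl O φ‖ := fun φ => by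
    have := hb φ.1 φ.2
    rwa [← nm_toLp (Test.m2 φ.2)] at this
  have hk : LinearMap.ker (cl O) ≤ LinearMap.ker Λ' := fun φ hφ => by
    have := hb' φ
    rw [LinearMap.mem_ker.1 hφ, norm_zero, mul_zero] at this
    exact abs_nonpos_iff.1 this
  let f₀ : LinearMap.range (cl O) →ₗ[ℝ] ℝ :=
    ((LinearMap.ker (cl O)).liftQ Λ' hk).comp (cl O).quotKerEquivRange.symm.toLinearMap
  have hf₀ : ∀ φ : TS O, f₀ ⟨cl O φ, LinearMap.mem_range_self _ φ⟩ = Λ' φ := fun φ => by
    simp only [f₀, LinearMap.comp_apply, LinearEquiv.coe_coe,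
      LinearMap.quotKerEquivRange_symm_apply_image, Submodule.mkQ_apply, Submodule.liftQ_apply]
  have hf₁ : ∀ ξ, ‖f₀ ξ‖ ≤ R * ‖ξ‖ := by
    rintro ⟨_, φ, rfl⟩
    rw [hf₀]
    exact hb' φ
  obtain ⟨G, hG, hn⟩ := exists_extension_norm_eq _ (f₀.mkContinuous R hf₁)
  refine ⟨(InnerProductSpace.toDual ℝ L).symm G, M2.coe _, ?_, fun φ hφ => ?_⟩
  · rw [nm_coe, LinearIsometryEquiv.norm_map, hn]
    exact f₀.mkContinuous_norm_le hR hf₁
  · have h1 := hG ⟨cl O ⟨φ, hφ⟩, LinearMap.mem_range_self _ _⟩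
    rw [LinearMap.mkContinuous_apply, hf₀] at h1
    have h2 := InnerProductSpace.toDual_symm_apply (𝕜 := ℝ) (x := cl O ⟨φ, hφ⟩) (y := G)
    rw [inner_L] at h2
    refine (h1.symm.trans h2.symm).trans (integral_congr_ae ?_)
    filter_upwards [hφ.m2.coeFn_toLp] with x hx
    exact congrArg _ hx

end Pool.Agent.MP_ed9623_an.H77
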