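import Pool.Agent.MP_ed9623_an.H77.SpecW

/-! The chart: measure preservation, chain rule and transport of `H¹`. -/

open MeasureTheory Filter Topology Set
open scoped ContDiff

namespace Pool.Agent.MP_ed9623_an.H77

open H64

namespace Th

variable {x τ : P} {γ : ℝ → ℝ}

theorem mp_shear (hγ : Gam γ) :
    MeasurePreserving (fun p : P => ((p.1, p.2 + γ p.1) : P)) volume volume := by
  have hc := hγ.sm.continuous
  exact (MeasurePreserving.id (volume : Measure ℝ)).skew_product (g := fun a b => b + γ a)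
    (μc := volume) (μd := volume) (by fun_prop)
    (Eventually.of_forall fun a => map_add_right_eq_self volume (γ a))

theorem mp_rot (hτ : τ.1 ^ 2 + τ.2 ^ 2 = 1) :
    MeasurePreserving (fun p : P => ((τ.1 * p.1 - τ.2 * p.2, τ.2 * p.1 + τ.1 * p.2) : P))
      volume volume := by
  let A : P →ₗ[ℝ] P := Matrix.toLin (Module.Basis.finTwoProd ℝ) (Module.Basis.finTwoProd ℝ)
    !![τ.1, -τ.2; τ.2, τ.1]
  have hd : LinearMap.det A = 1 := by
    rw [LinearMap.det_toLin, Matrix.det_fin_two_of]; linear_combination hτ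
  have e : (fun p : P => ((τ.1 * p.1 - τ.2 * p.2, τ.2 * p.1 + τ.1 * p.2) : P)) = A := by
    funext p
    rw [Matrix.toLin_finTwoProd_apply]
    ext <;> simp [sub_eq_add_neg]
  refine ⟨by fun_prop, ?_⟩
  rw [e, Measure.map_linearMap_addHaar_eq_smul_addHaar volume (by rw [hd]; exact one_ne_zero), hd]
  simp

theorem mp (hτ : τ.1 ^ 2 + τ.2 ^ 2 = 1) (hγ : Gam γ) :
    MeasurePreserving (Th x τ γ) volume volume := by
  have := (measurePreserving_add_left volume x).comp ((mp_rot hτ).comp (mp_shear hγ))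
  convert this using 1
  funext p
  ext <;> simp [Th] <;> ring

/-- The chart as a homeomorphism. -/
def hom (x : P) (hτ : τ.1 ^ 2 + τ.2 ^ 2 = 1) (hγ : Gam γ) : P ≃ₜ P where
  toFun := Th x τ γ
  invFun := Thi x τ γ
  left_inv := Thi_Th hτ
  right_inv := Th_Thi hτ
  continuous_toFun := (sm_Th hγ x τ).continuous
  continuous_invFun := (sm_Thi hγ x τ).continuous

theorem mpi (hτ : τ.1 ^ 2 + τ.2 ^ 2 = 1) (hγ : Gam γ) :
    MeasurePreserving (Thi x τ γ) volume volume :=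
  MeasurePreserving.symm (hom x hτ hγ).toMeasurableEquiv (mp hτ hγ)

theorem pd_two (φ : P → ℝ) (v z : P) : pd v φ z = v.1 * pd (ee 0) φ z + v.2 * pd (ee 1) φ z := by
  rw [← pd_smul_dir, ← pd_smul_dir, ← pd_add_dir]
  congr 1
  ext <;> simp [ee]

theorem chain (hγ : Gam γ) {φ : P → ℝ} (hφ : ContDiff ℝ ∞ φ) (e p : P) :
    pd e (fun p => φ (Th x τ γ p)) p =
      (τ.1 * e.1 - τ.2 * (e.2 + deriv γ p.1 * e.1)) * pd (ee 0) φ (Th x τ γ p) +
        (τ.2 * e.1 + τ.1 * (e.2 + deriv γ p.1 * e.1)) * pd (ee 1) φ (Th x τ γ p) := by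
  refine HD.pd_eq ?_ (sm_diff (hφ.comp (sm_Th hγ x τ)) p)
  have h1 : HasDerivAt (fun s : ℝ => p.1 + s * e.1) e.1 0 := by
    simpa using ((hasDerivAt_id (0 : ℝ)).mul_const e.1).const_add p.1
  have h2 : HasDerivAt (fun s : ℝ => p.2 + s * e.2) e.2 0 := by
    simpa using ((hasDerivAt_id (0 : ℝ)).mul_const e.2).const_add p.2
  have h3 : HasDerivAt (fun s : ℝ => γ (p.1 + s * e.1)) (deriv γ p.1 * e.1) 0 := by
    have := (hγ.hasDerivAt (p.1 + 0 * e.1)).comp (0 : ℝ) h1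
    simpa [Function.comp_def] using this
  have h4 : HasDerivAt (fun s : ℝ => Th x τ γ (p + s • e))
      ((τ.1 * e.1 - τ.2 * (e.2 + deriv γ p.1 * e.1),
        τ.2 * e.1 + τ.1 * (e.2 + deriv γ p.1 * e.1)) : P) 0 :=
    HasDerivAt.prodMk (((h1.const_mul τ.1).const_add x.1).fun_sub ((h2.fun_add h3).const_mul τ.2))
      (((h1.const_mul τ.2).const_add x.2).fun_add ((h2.fun_add h3).const_mul τ.1))
  have h5 := (sm_diff hφ (Th x τ γ (p + (0 : ℝ) • e))).hasFDerivAt.comp_hasDerivAt (0 : ℝ) h4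
  have h6 := pd_two φ ((τ.1 * e.1 - τ.2 * (e.2 + deriv γ p.1 * e.1),
        τ.2 * e.1 + τ.1 * (e.2 + deriv γ p.1 * e.1)) : P) (Th x τ γ p)
  simp only [zero_smul, add_zero] at h5
  rw [← h6]
  exact h5

theorem dd_Th (hγ : Gam γ) {φ : P → ℝ} (hφ : ContDiff ℝ ∞ φ) (i : Fin 2) :
    dd γ i (fun p => φ (Th x τ γ p)) = tv x τ γ (fun l => pd (ee l) φ) i := by
  funext p
  fin_cases i
  · change dd γ 0 _ p = _
    rw [dd0, chain hγ hφ, chain hγ hφ]
    simp [tv, Rm, ee]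
    ring
  · change dd γ 1 _ p = _
    rw [dd1, chain hγ hφ]
    simp [tv, Rm, ee]

theorem dd_Thi (hτ : τ.1 ^ 2 + τ.2 ^ 2 = 1) (hγ : Gam γ) {φ : P → ℝ} (hφ : ContDiff ℝ ∞ φ)
    (i : Fin 2) (q : P) : dd γ i φ (Thi x τ γ q) =
      ∑ k, Rm τ i k * pd (ee k) (fun q => φ (Thi x τ γ q)) q := by
  have := congrFun (dd_Th (x := x) (τ := τ) hγ (hφ.comp (sm_Thi hγ x τ)) i) (Thi x τ γ q)
  simp only [Function.comp_def, Thi_Th hτ, tv, Th_Thi hτ] at this
  exact this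

theorem pd_Thi (hτ : τ.1 ^ 2 + τ.2 ^ 2 = 1) (hγ : Gam γ) {φ : P → ℝ} (hφ : ContDiff ℝ ∞ φ)
    (l : Fin 2) : pd (ee l) (fun q => φ (Thi x τ γ q)) = bv x τ γ (fun i => dd γ i φ) l := by
  funext q
  simp only [bv, dd_Thi hτ hγ hφ, Fin.sum_univ_two]
  fin_cases l
  · simp [Rm]
    linear_combination (-pd (ee 0) (fun q => φ (Thi x τ γ q)) q) * hτ
  · simp [Rm]
    linear_combination (-pd (ee 1) (fun q => φ (Thi x τ γ q)) q) * hτ

theorem test_hom {O : Set P} {φ : P → ℝ} (h : Test O φ) (e : P ≃ₜ P) (he : ContDiff ℝ ∞ e) :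
    Test (e ⁻¹' O) fun p => φ (e p) := by
  refine ⟨h.1.comp he, h.2.1.comp_homeomorph e, Subset.trans ?_ (preimage_mono h.2.2)⟩
  refine closure_minimal (fun z hz => subset_tsupport φ hz) ?_
  exact (isClosed_tsupport φ).preimage e.continuous

theorem int_Th (hτ : τ.1 ^ 2 + τ.2 ^ 2 = 1) (hγ : Gam γ) (F : P → ℝ) :
    ∫ p, F (Th x τ γ p) = ∫ q, F q :=
  (mp hτ hγ).integral_comp (hom x hτ hγ).measurableEmbedding F

theorem h1 (hτ : τ.1 ^ 2 + τ.2 ^ 2 = 1) (hγ : Gam γ) {f : P → ℝ} {d : Fin 2 → P → ℝ}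
    (h : H1 (fun _ => 0) f d) : H1 γ (fun p => f (Th x τ γ p)) (tv x τ γ d) := by
  have hm : ∀ k, M2 fun p => d k (Th x τ γ p) := fun k =>
    (h.md k).comp_measurePreserving (mp hτ hγ)
  refine ⟨h.m.comp_measurePreserving (mp hτ hγ), fun i => ?_, fun i φ hφ => ?_⟩
  · have : tv x τ γ d i = fun p => Rm τ i 0 * d 0 (Th x τ γ p) + Rm τ i 1 * d 1 (Th x τ γ p) := by
      funext p; simp only [tv, Fin.sum_univ_two]
    rw [this]
    exact ((hm 0).cmul _).add ((hm 1).cmul _)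
  · have hψ : Test univ fun q => φ (Thi x τ γ q) :=
      (test_hom hφ (hom x hτ hγ).symm (sm_Thi hγ x τ)).top
    have a := int_Th (x := x) hτ hγ fun q => f q * dd γ i φ (Thi x τ γ q)
    have b := int_Th (x := x) hτ hγ fun q => (∑ k, Rm τ i k * d k q) * φ (Thi x τ γ q)
    simp only [Thi_Th hτ] at a b
    have w0 := h.w 0 _ hψ
    have w1 := h.w 1 _ hψ
    rw [dd_zero] at w0 w1
    simp only [tv]
    rw [a, b]
    simp only [dd_Thi hτ hγ hφ.1, Fin.sum_univ_two, mul_add, add_mul, mul_left_comm (f _),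
      mul_assoc]
    rw [integral_add ((h.m.int_mul (hψ.pd _).m2).const_mul _)
      ((h.m.int_mul (hψ.pd _).m2).const_mul _),
      integral_add (((h.md 0).int_mul hψ.m2).const_mul _) (((h.md 1).int_mul hψ.m2).const_mul _)]
    simp only [integral_const_mul]
    rw [w0, w1]
    ring

end Th

theorem rowTh : OfTh := by
  intro x τ γ hτ hγ
  refine ⟨Th.mp hτ hγ, Th.mpi hτ hγ, ?_, fun φ hφ => ⟨Th.dd_Th hγ hφ, Th.pd_Thi hτ hγ hφ⟩,
    fun O φ h => ⟨Th.test_hom h (Th.hom x hτ hγ) (sm_Th hγ x τ),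
      Th.test_hom h (Th.hom x hτ hγ).symm (sm_Thi hγ x τ)⟩, fun f d h => Th.h1 hτ hγ h⟩
  exact ⟨(Lp.compMeasurePreservingₗᵢ ℝ (Th x τ γ) (Th.mp hτ hγ)).toContinuousLinearMap,
    fun f => Lp.coeFn_compMeasurePreserving f (Th.mp hτ hγ)⟩

end Pool.Agent.MP_ed9623_an.H77
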